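import Pool.Agent.H839R3.Nas.Stmts

/-! Project H839NAS, task U: the generic set. -/

namespace Pool.Agent.H237R3.Nas

open Pool.Agent.H839R3.Nas

theorem lead_unique {m m' : ℕ} {a a' : V} (ha : ∀ i ∈ a.support, i < m)
    (ha' : ∀ i ∈ a'.support, i < m')
    (h : (Finsupp.single m 1 : V) + a = Finsupp.single m' 1 + a') : m = m' ∧ a = a' := by
  have hz : ∀ {m : ℕ} {a : V}, (∀ i ∈ a.support, i < m) → ∀ j, m ≤ j → a j = 0 := by
    intro m a ha j hj
    by_contra hne
    exact absurd (ha j (Finsupp.mem_support_iff.2 hne)) (by omega)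
  have hm : m = m' := by
    rcases lt_trichotomy m m' with hlt | heq | hgt
    · exfalso
      have h1 := DFunLike.congr_fun h m'
      simp only [Finsupp.coe_add, Pi.add_apply, Finsupp.single_apply, hlt.ne, if_false,
        if_true, hz ha m' hlt.le, hz ha' m' le_rfl] at h1
      revert h1
      decide
    · exact heq
    · exfalso
      have h1 := DFunLike.congr_fun h m
      simp only [Finsupp.coe_add, Pi.add_apply, Finsupp.single_apply, hgt.ne, if_false,
        if_true, hz ha m le_rfl, hz ha' m hgt.le] at h1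
      revert h1
      decide
  subst hm
  exact ⟨rfl, add_left_cancel h⟩

theorem taskU : TaskU := by
  classical
  obtain ⟨g, hg⟩ := exists_surjective_nat (Finset V)
  let enum : ℕ → Finset V := fun m => g m.unpair.1
  refine ⟨fun y => ∃ (m : ℕ) (a : V), (∀ i ∈ a.support, i < m) ∧
    y = Finsupp.single m 1 + a ∧ a ∈ enum m, ?_⟩
  intro A F
  obtain ⟨i, hi⟩ := hg (A.filter (· ∈ F))
  obtain ⟨j, hj⟩ : ∃ j : ℕ, ∀ a ∈ A, ∀ i ∈ a.support, i < j := by
    refine ⟨(A.biUnion fun a => a.support).sup id + 1, ?_⟩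
    intro a ha i hi
    have h1 : i ∈ A.biUnion fun a => a.support := Finset.mem_biUnion.2 ⟨a, ha, hi⟩
    exact Nat.lt_succ_of_le (Finset.le_sup (f := id) h1)
  set m := Nat.pair i j with hm
  have hjm : j ≤ m := Nat.right_le_pair i j
  have hlt : ∀ a ∈ A, ∀ i ∈ a.support, i < m := fun a ha i hi =>
    lt_of_lt_of_le (hj a ha i hi) hjm
  have henum : enum m = A.filter (· ∈ F) := by
    show g (Nat.unpair m).1 = _
    rw [hm, Nat.unpair_pair]
    exact hi
  refine ⟨Finsupp.single m 1, ?_, ?_⟩
  · intro hA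
    have := hlt _ hA m (by
      rw [Finsupp.mem_support_iff]
      simp)
    omega
  · intro a ha
    constructor
    · rintro ⟨m', a', ha', heq, hmem⟩
      obtain ⟨h1, h2⟩ := lead_unique (hlt a ha) ha' heq
      subst h1 h2
      rw [henum] at hmem
      exact (Finset.mem_filter.1 hmem).2
    · intro haF
      refine ⟨m, a, hlt a ha, rfl, ?_⟩
      rw [henum]
      exact Finset.mem_filter.2 ⟨ha, haF⟩

end Pool.Agent.H237R3.Nas
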